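import Pool.Agent.Helper84.PR.Poly

/-!
# Reduction to polygons
-/

namespace Pool.Agent.Helper84.PR

open Metric Filter Topology Pool.Agent.Helper16.Disk7

/-- Two sets are within `ε` of each other. -/
def Near (ε : ℝ) (A B : Set ℂ) : Prop :=
  (∀ z ∈ A, ∃ z' ∈ B, ‖z - z'‖ ≤ ε) ∧ (∀ z' ∈ B, ∃ z ∈ A, ‖z - z'‖ ≤ ε)

/-- Reduction to polygons: to accommodate a family `K` of nonempty compact convex sets of
perimeter `p` it is enough to accommodate all families of polygons of perimeter `p` with nonempty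
interior which are within `ε₀` of `K`. -/
theorem of_polygons {k : ℕ} {D : Set ℂ} (hD : IsCompact D) {K : Fin k → Set ℂ} {p : ℝ}
    (hp : 0 < p) (hc : ∀ i, IsCompact (K i)) (hne : ∀ i, (K i).Nonempty)
    (hv : ∀ i, Convex ℝ (K i)) (hper : ∀ i, perimeter (K i) = p) {ε₀ : ℝ} (hε₀ : 0 < ε₀)
    (h : ∀ F : Fin k → Finset ℂ, (∀ i, perimeter (convexHull ℝ (F i : Set ℂ)) = p ∧
      (interior (convexHull ℝ (F i : Set ℂ))).Nonempty ∧
      Near ε₀ (K i) (convexHull ℝ (F i : Set ℂ))) →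
      Accommodates D (fun i => convexHull ℝ (F i : Set ℂ))) :
    Accommodates D K := by
  refine accommodates_of_approx hD K hc hne fun ε hε => ?_
  have h1 : ∀ i, ∃ F : Finset ℂ, perimeter (convexHull ℝ (F : Set ℂ)) = p ∧
      (interior (convexHull ℝ (F : Set ℂ))).Nonempty ∧
      (∀ z ∈ K i, ∃ z' ∈ convexHull ℝ (F : Set ℂ), ‖z - z'‖ ≤ min ε ε₀) ∧
      (∀ z' ∈ convexHull ℝ (F : Set ℂ), ∃ z ∈ K i, ‖z - z'‖ ≤ min ε ε₀) := fun i =>
    exists_polygon_near (hc i) (hne i) (hv i) hp (hper i) (lt_min hε hε₀)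
  choose F hF1 hF2 hF3 hF4 using h1
  refine ⟨fun i => convexHull ℝ (F i : Set ℂ), h F fun i => ⟨hF1 i, hF2 i, ?_, ?_⟩, fun i =>
    ⟨convex_convexHull ℝ _, (isCompact_hull (F i)).isClosed, ?_⟩⟩
  · intro z hz
    obtain ⟨z', hz', hzz⟩ := hF3 i z hz
    exact ⟨z', hz', hzz.trans (min_le_right _ _)⟩
  · intro z hz
    obtain ⟨z', hz', hzz⟩ := hF4 i z hz
    exact ⟨z', hz', hzz.trans (min_le_right _ _)⟩
  · intro z hz
    obtain ⟨z', hz', hzz⟩ := hF3 i z hz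
    exact ⟨z', hz', hzz.trans (min_le_left _ _)⟩

/-- Inner disks survive. -/
theorem Near.closedBall_subset {ε : ℝ} {A B : Set ℂ} (h : Near ε A B) (hε : 0 ≤ ε)
    (hB : Convex ℝ B) (hBc : IsClosed B) {c : ℂ} {r : ℝ} (hr : ε < r) (hA : closedBall c r ⊆ A) :
    closedBall c (r - ε) ⊆ B := by
  have h1 : ball c (r - ε) ⊆ B :=
    ball_subset_of_near hB hBc hr hε fun x hx => h.1 x (hA hx)
  rw [← closure_ball c (by linarith : r - ε ≠ 0)]
  exact closure_minimal h1 hBc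

/-- Outer disks survive. -/
theorem Near.subset_closedBall {ε : ℝ} {A B : Set ℂ} (h : Near ε A B) {c : ℂ} {r : ℝ}
    (hA : A ⊆ closedBall c r) : B ⊆ closedBall c (r + ε) := by
  intro z' hz'
  obtain ⟨z, hz, hzz⟩ := h.2 z' hz'
  have h1 := hA hz
  rw [mem_closedBall, dist_eq_norm] at h1 ⊢
  calc ‖z' - c‖ = ‖(z - c) - (z - z')‖ := by ring_nf
    _ ≤ ‖z - c‖ + ‖z - z'‖ := norm_sub_le _ _
    _ ≤ r + ε := add_le_add h1 hzz

/-- Diameters. -/
theorem Near.norm_sub_le {ε : ℝ} {A B : Set ℂ} (h : Near ε A B) {d : ℝ}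
    (hA : ∀ x ∈ A, ∀ y ∈ A, ‖x - y‖ ≤ d) : ∀ x ∈ B, ∀ y ∈ B, ‖x - y‖ ≤ d + 2 * ε := by
  intro x hx y hy
  obtain ⟨x', hx', hxx⟩ := h.2 x hx
  obtain ⟨y', hy', hyy⟩ := h.2 y hy
  calc ‖x - y‖ = ‖(x' - y') - (x' - x) + (y' - y)‖ := by ring_nf
    _ ≤ ‖(x' - y') - (x' - x)‖ + ‖y' - y‖ := norm_add_le _ _
    _ ≤ ‖x' - y'‖ + ‖x' - x‖ + ‖y' - y‖ := by gcongr; exact _root_.norm_sub_le _ _
    _ ≤ d + 2 * ε := by linarith [hA x' hx' y' hy']

/-- Scaling of `Accommodates`: perimeter `1` against perimeter `2 * π`. -/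
theorem accommodates_smul {k : ℕ} {K : Fin k → Set ℂ} {c : ℂ} {R s : ℝ} (hs : 0 < s)
    (h : Accommodates (closedBall c R) K) :
    Accommodates (closedBall ((s : ℂ) * c) (s * R)) (fun i => (fun z : ℂ => (s : ℂ) * z) '' K i) := by
  obtain ⟨g, hg, hgD, hdis⟩ := h
  choose a b ha hgab using hg
  have hs0 : (s : ℂ) ≠ 0 := by exact_mod_cast hs.ne'
  have himg : ∀ i, (fun z => a i * z + (s : ℂ) * b i) '' ((fun z : ℂ => (s : ℂ) * z) '' K i) =
      (fun z : ℂ => (s : ℂ) * z) '' (g i '' K i) := by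
    intro i
    ext w
    constructor
    · rintro ⟨_, ⟨z, hz, rfl⟩, rfl⟩
      exact ⟨g i z, ⟨z, hz, rfl⟩, by rw [hgab]; ring⟩
    · rintro ⟨_, ⟨z, hz, rfl⟩, rfl⟩
      exact ⟨(s : ℂ) * z, ⟨z, hz, rfl⟩, by rw [hgab]; ring⟩
  have hint : ∀ A : Set ℂ, interior ((fun z : ℂ => (s : ℂ) * z) '' A) =
      (fun z : ℂ => (s : ℂ) * z) '' interior A := by
    intro A
    exact ((Homeomorph.mulLeft₀ (s : ℂ) hs0).image_interior A).symm
  refine ⟨fun i z => a i * z + (s : ℂ) * b i, fun i => ⟨a i, (s : ℂ) * b i, ha i, fun z => rfl⟩,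
    ?_, ?_⟩
  · intro i
    rw [himg]
    rintro _ ⟨w, hw, rfl⟩
    have h1 := hgD i hw
    rw [mem_closedBall, dist_eq_norm] at h1 ⊢
    rw [← mul_sub, norm_mul, Complex.norm_real, Real.norm_eq_abs, abs_of_pos hs]
    exact mul_le_mul_of_nonneg_left h1 hs.le
  · intro i j hij
    rw [himg, himg, hint, hint]
    rw [Set.disjoint_image_iff (mul_right_injective₀ hs0)]
    exact hdis i j hij

end Pool.Agent.Helper84.PR
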