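import Pool.Agent.Helper16.Disk7.Defs

/-!
# Compactness: families accommodated up to small errors are accommodated
-/

namespace Pool.Agent.Helper84.PR

open Metric Filter Topology Pool.Agent.Helper16.Disk7

/-- If a closed convex set `C` comes within `δ < r` of each point of the closed disk of radius `r`
about `p`, then it contains the open disk of radius `r - δ` about `p`. -/
theorem ball_subset_of_near {C : Set ℂ} (hC : Convex ℝ C) (hcl : IsClosed C) {p : ℂ} {r δ : ℝ}
    (hδr : δ < r) (hδ : 0 ≤ δ)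
    (h : ∀ x ∈ closedBall p r, ∃ c ∈ C, ‖x - c‖ ≤ δ) : ball p (r - δ) ⊆ C := by
  intro q hq
  by_contra hqC
  obtain ⟨f, u, hfu, hC'⟩ := geometric_hahn_banach_point_closed hC hcl hqC
  -- the unit direction in which `f` decreases
  have hf0 : 0 < ‖f‖ := by
    rw [norm_pos_iff]
    rintro rfl
    obtain ⟨c, hc, -⟩ := h p (mem_closedBall_self (by linarith))
    have := hC' c hc
    simp at this hfu
    linarith
  have hr : 0 < r := by linarith
  -- `f q` is at least `f p - (r - δ) ‖f‖` strictly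
  have h1 : f p - f q < (r - δ) * ‖f‖ := by
    have h2 : f p - f q = f (p - q) := by rw [map_sub]
    rw [h2]
    calc f (p - q) ≤ ‖f (p - q)‖ := Real.le_norm_self _
      _ ≤ ‖f‖ * ‖p - q‖ := f.le_opNorm _
      _ < ‖f‖ * (r - δ) := by
        have : ‖p - q‖ < r - δ := by
          rw [← dist_eq_norm, dist_comm]
          exact hq
        exact mul_lt_mul_of_pos_left this hf0
      _ = (r - δ) * ‖f‖ := mul_comm _ _
  -- choose a nearly extremal vector
  have h3 : ∃ v : ℂ, ‖v‖ ≤ 1 ∧ (f p - f q) / r + δ / r * ‖f‖ < f v := by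
    by_contra hcon
    push Not at hcon
    have h4 : ‖f‖ ≤ (f p - f q) / r + δ / r * ‖f‖ := by
      refine ContinuousLinearMap.opNorm_le_of_unit_norm ?_ ?_
      · have := hcon 0 (by simp)
        simpa using this
      · intro x hx
        rw [Real.norm_eq_abs]
        rcases abs_cases (f x) with ⟨h5, -⟩ | ⟨h5, -⟩
        · rw [h5]
          exact hcon x hx.le
        · rw [h5, ← map_neg]
          exact hcon (-x) (by rw [norm_neg]; exact hx.le)
    have h5 : r * ‖f‖ ≤ (f p - f q) + δ * ‖f‖ := by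
      have := mul_le_mul_of_nonneg_left h4 hr.le
      have h6 : r * ((f p - f q) / r + δ / r * ‖f‖) = (f p - f q) + δ * ‖f‖ := by
        field_simp
      linarith
    nlinarith
  obtain ⟨v, hv, hfv⟩ := h3
  obtain ⟨c, hc, hxc⟩ := h (p - (r : ℝ) • v) (by
    rw [mem_closedBall, dist_eq_norm]
    have : p - (r : ℝ) • v - p = -((r : ℝ) • v) := by ring
    rw [this, norm_neg, norm_smul, Real.norm_eq_abs, abs_of_pos hr]
    calc r * ‖v‖ ≤ r * 1 := mul_le_mul_of_nonneg_left hv hr.le
      _ = r := mul_one r)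
  have h6 := hC' c hc
  have h7 : f c - f (p - (r : ℝ) • v) ≤ ‖f‖ * δ := by
    rw [← map_sub]
    calc f (c - (p - (r : ℝ) • v)) ≤ ‖f (c - (p - (r : ℝ) • v))‖ := Real.le_norm_self _
      _ ≤ ‖f‖ * ‖c - (p - (r : ℝ) • v)‖ := f.le_opNorm _
      _ ≤ ‖f‖ * δ := by
        refine mul_le_mul_of_nonneg_left ?_ hf0.le
        rw [norm_sub_rev]
        exact hxc
  have h8 : f (p - (r : ℝ) • v) = f p - r * f v := by
    rw [map_sub, map_smul, smul_eq_mul]
  have h9 : (f p - f q) + δ * ‖f‖ < r * f v := by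
    have := mul_lt_mul_of_pos_left hfv hr
    have h10 : r * ((f p - f q) / r + δ / r * ‖f‖) = (f p - f q) + δ * ‖f‖ := by
      field_simp
    linarith
  nlinarith

/-- Closedness of `Accommodates`: if, for every `ε > 0`, the compact set `D` accommodates a family
of closed convex sets which is within `ε` of the family `K` of nonempty compact sets, then it
accommodates the family `K`. -/
theorem accommodates_of_approx {k : ℕ} {D : Set ℂ} (hD : IsCompact D) (K : Fin k → Set ℂ)
    (hc : ∀ i, IsCompact (K i)) (hne : ∀ i, (K i).Nonempty)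
    (h : ∀ ε > 0, ∃ K' : Fin k → Set ℂ, Accommodates D K' ∧ ∀ i, Convex ℝ (K' i) ∧
      IsClosed (K' i) ∧ (∀ z ∈ K i, ∃ z' ∈ K' i, ‖z - z'‖ ≤ ε)) :
    Accommodates D K := by
  -- bounds
  obtain ⟨M, hM⟩ := hD.isBounded.exists_norm_le
  have hKb : ∃ N : ℝ, 0 ≤ N ∧ ∀ i, ∀ z ∈ K i, ‖z‖ ≤ N := by
    have : ∀ i, ∃ N : ℝ, ∀ z ∈ K i, ‖z‖ ≤ N := fun i => (hc i).isBounded.exists_norm_le
    choose N hN using this
    refine ⟨∑ i, |N i|, Finset.sum_nonneg fun i _ => abs_nonneg _, fun i z hz => ?_⟩
    exact (hN i z hz).trans ((le_abs_self _).trans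
      (Finset.single_le_sum (f := fun i => |N i|) (fun j _ => abs_nonneg _) (Finset.mem_univ i)))
  obtain ⟨N, hN0, hN⟩ := hKb
  -- the sequences
  have hε : ∀ n : ℕ, (0 : ℝ) < 1 / ((n : ℝ) + 1) := fun n => by positivity
  choose K' hacc hK' using fun n : ℕ => h (1 / ((n : ℝ) + 1)) (hε n)
  choose g hg hgD hdis using hacc
  choose a b ha hgab using hg
  have hab : ∀ n, (fun i => (a n i, b n i) : Fin k → ℂ × ℂ) ∈
      Set.pi Set.univ (fun _ : Fin k => closedBall (0 : ℂ) 1 ×ˢ closedBall (0 : ℂ) (M + N + 1)) := by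
    intro n i _
    refine ⟨by rw [mem_closedBall_zero_iff]; exact (ha n i).le, ?_⟩
    rw [mem_closedBall_zero_iff]
    obtain ⟨z, hz⟩ := hne i
    obtain ⟨z', hz', hzz⟩ := (hK' n i).2.2 z hz
    have h1 : g n i z' ∈ D := hgD n i ⟨z', hz', rfl⟩
    have h2 := hM _ h1
    rw [hgab] at h2
    have h3 : ‖z'‖ ≤ N + 1 := by
      have h4 : z' = z - (z - z') := by ring
      rw [h4]
      refine (norm_sub_le _ _).trans (add_le_add (hN i z hz) (hzz.trans ?_))
      rw [div_le_one (by positivity)]
      have : (0 : ℝ) ≤ n := Nat.cast_nonneg n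
      linarith
    have h4 : b n i = (a n i * z' + b n i) - a n i * z' := by ring
    show ‖b n i‖ ≤ M + N + 1
    rw [h4]
    refine (norm_sub_le _ _).trans ?_
    rw [norm_mul, ha, one_mul]
    linarith
  have hcomp : IsCompact (Set.pi Set.univ
      (fun _ : Fin k => closedBall (0 : ℂ) 1 ×ˢ closedBall (0 : ℂ) (M + N + 1))) :=
    isCompact_univ_pi fun _ => (isCompact_closedBall _ _).prod (isCompact_closedBall _ _)
  obtain ⟨L, -, φ, hφ, hL⟩ := hcomp.tendsto_subseq hab
  have hLi : ∀ i, Tendsto (fun n => (a (φ n) i, b (φ n) i)) atTop (𝓝 (L i)) := by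
    intro i
    exact (tendsto_pi_nhds.1 hL) i
  have hLa : ∀ i, Tendsto (fun n => a (φ n) i) atTop (𝓝 (L i).1) := fun i =>
    ((continuous_fst.tendsto (L i)).comp (hLi i))
  have hLb : ∀ i, Tendsto (fun n => b (φ n) i) atTop (𝓝 (L i).2) := fun i =>
    ((continuous_snd.tendsto (L i)).comp (hLi i))
  have hLa1 : ∀ i, ‖(L i).1‖ = 1 := by
    intro i
    have h1 : Tendsto (fun n => ‖a (φ n) i‖) atTop (𝓝 ‖(L i).1‖) := (hLa i).norm
    simp only [ha] at h1
    exact (tendsto_nhds_unique h1 tendsto_const_nhds)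
  have hφt : Tendsto φ atTop atTop := hφ.tendsto_atTop
  have hεt : Tendsto (fun n => 1 / ((φ n : ℝ) + 1)) atTop (𝓝 0) :=
    tendsto_one_div_add_atTop_nhds_zero_nat.comp hφt
  -- for large `n`, images are close
  have hclose : ∀ i, ∀ δ > 0, ∀ᶠ n in atTop, ∀ z ∈ K i, ∃ z' ∈ K' (φ n) i,
      ‖((L i).1 * z + (L i).2) - (a (φ n) i * z' + b (φ n) i)‖ ≤ δ := by
    intro i δ hδ
    have h1 : Tendsto (fun n => ‖(L i).1 - a (φ n) i‖ * N + 1 / ((φ n : ℝ) + 1)
        + ‖(L i).2 - b (φ n) i‖) atTop (𝓝 (0 * N + 0 + 0)) := by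
      refine ((Tendsto.mul_const N ?_).add hεt).add ?_
      · have := ((tendsto_const_nhds (x := (L i).1)).sub (hLa i)).norm
        simpa using this
      · have := ((tendsto_const_nhds (x := (L i).2)).sub (hLb i)).norm
        simpa using this
    have h2 := h1.eventually (gt_mem_nhds (show (0 : ℝ) * N + 0 + 0 < δ by simpa using hδ))
    filter_upwards [h2] with n hn z hz
    obtain ⟨z', hz', hzz⟩ := (hK' (φ n) i).2.2 z hz
    refine ⟨z', hz', le_trans ?_ hn.le⟩
    have h3 : ((L i).1 * z + (L i).2) - (a (φ n) i * z' + b (φ n) i)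
        = ((L i).1 - a (φ n) i) * z + a (φ n) i * (z - z') + ((L i).2 - b (φ n) i) := by ring
    rw [h3]
    refine (norm_add₃_le).trans ?_
    rw [norm_mul, norm_mul, ha, one_mul]
    gcongr
    exact hN i z hz
  refine ⟨fun i z => (L i).1 * z + (L i).2, fun i => ⟨(L i).1, (L i).2, hLa1 i, fun z => rfl⟩,
    ?_, ?_⟩
  · rintro i _ ⟨z, hz, rfl⟩
    have hcl : IsClosed D := hD.isClosed
    rw [← hcl.closure_eq]
    rw [Metric.mem_closure_iff]
    intro ε hε0
    obtain ⟨n, hn⟩ := (hclose i (ε / 2) (by positivity)).exists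
    obtain ⟨z', hz', hzz⟩ := hn z hz
    refine ⟨a (φ n) i * z' + b (φ n) i, ?_, ?_⟩
    · have := hgD (φ n) i ⟨z', hz', rfl⟩
      rwa [hgab] at this
    · rw [dist_eq_norm]
      linarith
  · intro i j hij
    rw [Set.disjoint_left]
    intro p hpi hpj
    have hint : ∀ i, p ∈ interior ((fun z => (L i).1 * z + (L i).2) '' K i) →
        ∀ᶠ n in atTop, p ∈ interior (g (φ n) i '' K' (φ n) i) := by
      intro i hp
      rw [mem_interior_iff_mem_nhds, Metric.nhds_basis_closedBall.mem_iff] at hp
      obtain ⟨r, hr, hrs⟩ := hp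
      filter_upwards [hclose i (r / 2) (by positivity)] with n hn
      rw [mem_interior]
      refine ⟨ball p (r - r / 2), ?_, isOpen_ball, mem_ball_self (by linarith)⟩
      have hgeq : g (φ n) i = fun z => a (φ n) i * z + b (φ n) i := funext (hgab (φ n) i)
      refine ball_subset_of_near ?_ ?_ (by linarith) (by positivity) ?_
      · -- convexity of the image
        have h1 := (hK' (φ n) i).1
        rw [hgeq]
        rintro _ ⟨x, hx, rfl⟩ _ ⟨y, hy, rfl⟩ s t hs ht hst
        refine ⟨s • x + t • y, h1 hx hy hs ht hst, ?_⟩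
        simp only [Complex.real_smul]
        have h2 : (s : ℂ) + (t : ℂ) = 1 := by exact_mod_cast hst
        linear_combination (-(b (φ n) i)) * h2
      · -- closedness of the image
        have h1 := (hK' (φ n) i).2.1
        have h2 : g (φ n) i '' K' (φ n) i =
            (fun w => (a (φ n) i)⁻¹ * (w - b (φ n) i)) ⁻¹' (K' (φ n) i) := by
          have ha0 : a (φ n) i ≠ 0 := by
            intro h0
            have := ha (φ n) i
            rw [h0, norm_zero] at this
            norm_num at this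
          ext w
          constructor
          · rintro ⟨z, hz, rfl⟩
            simp only [Set.mem_preimage]
            rw [hgab]
            have : (a (φ n) i)⁻¹ * (a (φ n) i * z + b (φ n) i - b (φ n) i) = z := by
              field_simp
              ring
            rw [this]
            exact hz
          · intro hw
            refine ⟨_, hw, ?_⟩
            rw [hgab]
            field_simp
            ring
        rw [h2]
        exact h1.preimage (by fun_prop)
      · intro x hx
        obtain ⟨z, hz, rfl⟩ := hrs hx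
        obtain ⟨z', hz', hzz⟩ := hn z hz
        exact ⟨_, ⟨z', hz', rfl⟩, by rw [hgab]; exact hzz⟩
    obtain ⟨n, hn1, hn2⟩ := ((hint i hpi).and (hint j hpj)).exists
    exact (Set.disjoint_left.1 (hdis (φ n) i j hij)) hn1 hn2

end Pool.Agent.Helper84.PR
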