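import Pool.Agent.Helper84.PR.Cpt

/-!
# Polygons of perimeter `p` close to a convex set of perimeter `p`
-/

namespace Pool.Agent.Helper84.PR

open Metric Filter Topology Pool.Agent.Helper16.Disk7 MeasureTheory
open scoped Pointwise

/-- The linear functional of direction `θ`. -/
noncomputable def dir (θ : ℝ) (z : ℂ) : ℝ := z.re * Real.cos θ + z.im * Real.sin θ

lemma supportFn_eq (K : Set ℂ) (θ : ℝ) : supportFn K θ = sSup (dir θ '' K) := rfl

lemma continuous_dir : Continuous (fun p : ℝ × ℂ => dir p.1 p.2) := by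
  unfold dir
  fun_prop

lemma continuous_dir_right (θ : ℝ) : Continuous (dir θ) := by
  unfold dir
  fun_prop

lemma dir_sub (θ : ℝ) (z w : ℂ) : dir θ (z - w) = dir θ z - dir θ w := by
  simp only [dir, Complex.sub_re, Complex.sub_im]
  ring

lemma dir_smul (θ c : ℝ) (z : ℂ) : dir θ (c • z) = c * dir θ z := by
  simp only [dir, Complex.real_smul, Complex.mul_re, Complex.mul_im, Complex.ofReal_re,
    Complex.ofReal_im]
  ring

lemma abs_dir_le (θ : ℝ) (z : ℂ) : |dir θ z| ≤ ‖z‖ := by
  refine abs_le_of_sq_le_sq ?_ (norm_nonneg z)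
  rw [Complex.sq_norm, Complex.normSq_apply, dir]
  have h := Real.sin_sq_add_cos_sq θ
  nlinarith [sq_nonneg (z.re * Real.sin θ - z.im * Real.cos θ)]

lemma bddAbove_dir {K : Set ℂ} (hK : IsCompact K) (θ : ℝ) : BddAbove (dir θ '' K) :=
  (hK.image (continuous_dir_right θ)).bddAbove

theorem continuous_supportFn {K : Set ℂ} (hK : IsCompact K) : Continuous (supportFn K) := by
  have h : Continuous (fun θ => sSup (dir θ '' K)) :=
    hK.continuous_sSup (f := dir) continuous_dir
  exact h

lemma le_supportFn {K : Set ℂ} (hK : IsCompact K) {z : ℂ} (hz : z ∈ K) (θ : ℝ) :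
    dir θ z ≤ supportFn K θ := by
  rw [supportFn_eq]
  exact le_csSup (bddAbove_dir hK θ) ⟨z, hz, rfl⟩

lemma supportFn_le {K : Set ℂ} (hne : K.Nonempty) {θ c : ℝ} (h : ∀ z ∈ K, dir θ z ≤ c) :
    supportFn K θ ≤ c := by
  rw [supportFn_eq]
  refine csSup_le (hne.image _) ?_
  rintro _ ⟨z, hz, rfl⟩
  exact h z hz

/-- Perimeter comparison. -/
theorem perimeter_le_add {A B : Set ℂ} (hA : IsCompact A) (hAn : A.Nonempty) (hB : IsCompact B)
    {η : ℝ} (h : ∀ z ∈ A, ∃ z' ∈ B, ‖z - z'‖ ≤ η) :
    perimeter A ≤ perimeter B + 2 * Real.pi * η := by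
  have h1 : ∀ θ, supportFn A θ ≤ supportFn B θ + η := by
    intro θ
    refine supportFn_le hAn fun z hz => ?_
    obtain ⟨z', hz', hzz⟩ := h z hz
    have h2 := le_supportFn hB hz' θ
    have h3 : dir θ z - dir θ z' ≤ η := by
      rw [← dir_sub]
      exact (le_abs_self _).trans ((abs_dir_le _ _).trans hzz)
    linarith
  have h4 : perimeter A ≤ ∫ θ in (0 : ℝ)..(2 * Real.pi), (supportFn B θ + η) := by
    refine intervalIntegral.integral_mono_on (by positivity)
      ((continuous_supportFn hA).intervalIntegrable _ _)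
      (((continuous_supportFn hB).add continuous_const).intervalIntegrable _ _) ?_
    intro θ _
    exact h1 θ
  rw [intervalIntegral.integral_add ((continuous_supportFn hB).intervalIntegrable _ _)
    (continuous_const.intervalIntegrable _ _)] at h4
  rw [intervalIntegral.integral_const] at h4
  simp only [sub_zero, smul_eq_mul] at h4
  exact h4

theorem supportFn_smul {K : Set ℂ} {c : ℝ} (hc : 0 ≤ c) (θ : ℝ) :
    supportFn (c • K) θ = c * supportFn K θ := by
  rw [supportFn_eq, supportFn_eq]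
  have h : dir θ '' (c • K) = c • (dir θ '' K) := by
    ext x
    constructor
    · rintro ⟨_, ⟨z, hz, rfl⟩, rfl⟩
      exact ⟨dir θ z, ⟨z, hz, rfl⟩, by rw [dir_smul]; rfl⟩
    · rintro ⟨_, ⟨z, hz, rfl⟩, rfl⟩
      exact ⟨c • z, ⟨z, hz, rfl⟩, by rw [dir_smul]; rfl⟩
  rw [h, Real.sSup_smul_of_nonneg hc, smul_eq_mul]

theorem perimeter_smul {K : Set ℂ} {c : ℝ} (hc : 0 ≤ c) :
    perimeter (c • K) = c * perimeter K := by
  rw [perimeter, perimeter]
  simp only [supportFn_smul hc]
  rw [intervalIntegral.integral_const_mul]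

/-- The convex hull of a finite set in the plane is compact. -/
theorem isCompact_hull (F : Finset ℂ) : IsCompact (convexHull ℝ (F : Set ℂ)) :=
  F.finite_toSet.isCompact_convexHull (𝕜 := ℝ)

theorem interior_hull_nonempty {F : Set ℂ} {z : ℂ} {η : ℝ} (hη : 0 < η) (h0 : z ∈ F)
    (h1 : z + (η : ℂ) ∈ F) (h2 : z + (η : ℂ) * Complex.I ∈ F) :
    (interior (convexHull ℝ F)).Nonempty := by
  have hopen : IsOpen {w : ℂ | z.re < w.re ∧ z.im < w.im ∧ w.re + w.im < z.re + z.im + η} := by
    refine (isOpen_lt continuous_const Complex.continuous_re).inter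
      ((isOpen_lt continuous_const Complex.continuous_im).inter
        (isOpen_lt (Complex.continuous_re.add Complex.continuous_im) continuous_const))
  have hsub : {w : ℂ | z.re < w.re ∧ z.im < w.im ∧ w.re + w.im < z.re + z.im + η} ⊆
      convexHull ℝ F := by
    rintro w ⟨hw1, hw2, hw3⟩
    set x := (w.re - z.re) / η with hx
    set y := (w.im - z.im) / η with hy
    have hx0 : 0 ≤ x := div_nonneg (by linarith) hη.le
    have hy0 : 0 ≤ y := div_nonneg (by linarith) hη.le
    have hxy : 0 ≤ 1 - x - y := by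
      have h3 : (x + y) * η = (w.re - z.re) + (w.im - z.im) := by
        rw [hx, hy]
        field_simp
      have h4 : x + y ≤ 1 := by
        by_contra hcon
        push Not at hcon
        have := mul_lt_mul_of_pos_right hcon hη
        linarith
      linarith
    have hconv := convex_convexHull ℝ F
    have hm0 := subset_convexHull ℝ F h0
    have hm1 := subset_convexHull ℝ F h1
    have hm2 := subset_convexHull ℝ F h2
    have key : w = (1 - x - y) • z + x • (z + (η : ℂ)) + y • (z + (η : ℂ) * Complex.I) := by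
      have hxη : x * η = w.re - z.re := by rw [hx]; field_simp
      have hyη : y * η = w.im - z.im := by rw [hy]; field_simp
      apply Complex.ext
      · simp only [Complex.add_re, Complex.real_smul, Complex.mul_re, Complex.ofReal_re,
          Complex.ofReal_im, Complex.I_re, Complex.I_im, Complex.add_im, Complex.mul_im]
        linear_combination -hxη
      · simp only [Complex.add_re, Complex.real_smul, Complex.mul_re, Complex.ofReal_re,
          Complex.ofReal_im, Complex.I_re, Complex.I_im, Complex.add_im, Complex.mul_im]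
        linear_combination -hyη
    rw [key]
    have h5 : (1 - x - y) + x + y = 1 := by ring
    have h6 := hconv.sum_mem (t := Finset.univ) (w := ![1 - x - y, x, y])
      (z := ![z, z + (η : ℂ), z + (η : ℂ) * Complex.I])
      (by
        intro i _
        fin_cases i
        · exact hxy
        · exact hx0
        · exact hy0) (by rw [Fin.sum_univ_three]; exact h5)
      (by
        intro i _
        fin_cases i
        · exact hm0
        · exact hm1
        · exact hm2)
    rw [Fin.sum_univ_three] at h6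
    exact h6
  refine ⟨z + (η / 4 : ℝ) * (1 + Complex.I), interior_maximal hsub hopen ?_⟩
  refine ⟨?_, ?_, ?_⟩
  · simp
    linarith
  · simp
    linarith
  · simp
    linarith

/-- Polygons: for every nonempty compact convex set `K` of perimeter `p > 0` and every `ε > 0`
there is a polygon (convex hull of a finite set) with nonempty interior and perimeter `p` which is
within `ε` of `K`. -/
theorem exists_polygon_near {K : Set ℂ} (hK : IsCompact K) (hne : K.Nonempty)
    (hconv : Convex ℝ K) {p : ℝ} (hp : 0 < p) (hper : perimeter K = p) {ε : ℝ} (hε : 0 < ε) :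
    ∃ F : Finset ℂ, perimeter (convexHull ℝ (F : Set ℂ)) = p ∧
      (interior (convexHull ℝ (F : Set ℂ))).Nonempty ∧
      (∀ z ∈ K, ∃ z' ∈ convexHull ℝ (F : Set ℂ), ‖z - z'‖ ≤ ε) ∧
      (∀ z' ∈ convexHull ℝ (F : Set ℂ), ∃ z ∈ K, ‖z - z'‖ ≤ ε) := by
  classical
  obtain ⟨N, hN⟩ := hK.isBounded.exists_norm_le
  have hN0 : 0 ≤ N := by
    obtain ⟨z, hz⟩ := hne
    exact (norm_nonneg z).trans (hN z hz)
  have hpi := Real.pi_pos
  -- the scale
  obtain ⟨η, hη, hη1, hη2, hη3, hη4⟩ : ∃ η : ℝ, 0 < η ∧ η ≤ 1 ∧ η ≤ ε / 2 ∧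
      2 * Real.pi * η ≤ p / 2 ∧ 4 * Real.pi * η * (N + 1) ≤ p * (ε / 2) := by
    refine ⟨min (min 1 (ε / 2)) (min (p / (4 * Real.pi)) (p * ε / (8 * Real.pi * (N + 1)))),
      by positivity, (min_le_left _ _).trans (min_le_left _ _),
      (min_le_left _ _).trans (min_le_right _ _), ?_, ?_⟩
    · have h1 : min (min 1 (ε / 2)) (min (p / (4 * Real.pi)) (p * ε / (8 * Real.pi * (N + 1)))) ≤
          p / (4 * Real.pi) := (min_le_right _ _).trans (min_le_left _ _)
      calc 2 * Real.pi * _ ≤ 2 * Real.pi * (p / (4 * Real.pi)) :=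
            mul_le_mul_of_nonneg_left h1 (by positivity)
        _ = p / 2 := by field_simp; ring
    · have h1 : min (min 1 (ε / 2)) (min (p / (4 * Real.pi)) (p * ε / (8 * Real.pi * (N + 1)))) ≤
          p * ε / (8 * Real.pi * (N + 1)) := (min_le_right _ _).trans (min_le_right _ _)
      calc 4 * Real.pi * _ * (N + 1) ≤ 4 * Real.pi * (p * ε / (8 * Real.pi * (N + 1))) * (N + 1) := by
            gcongr
        _ = p * (ε / 2) := by field_simp; ring
  -- the net
  obtain ⟨t, htK, htf, htc⟩ := hK.finite_cover_balls hη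
  obtain ⟨z0, hz0⟩ := hne
  set F0 : Finset ℂ := htf.toFinset ∪ {z0, z0 + (η : ℂ), z0 + (η : ℂ) * Complex.I} with hF0
  set P : Set ℂ := convexHull ℝ (F0 : Set ℂ) with hP
  have hPc : IsCompact P := isCompact_hull F0
  have hsub0 : ∀ z ∈ (F0 : Set ℂ), ∃ z' ∈ K, ‖z - z'‖ ≤ η := by
    intro z hz
    rw [hF0] at hz
    simp only [Finset.coe_union, Set.mem_union, Set.Finite.coe_toFinset, Finset.coe_insert,
      Finset.coe_singleton, Set.mem_insert_iff, Set.mem_singleton_iff] at hz
    rcases hz with hz | hz | hz | hz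
    · exact ⟨z, htK hz, by simpa using hη.le⟩
    · exact ⟨z0, hz0, by rw [hz]; simpa using hη.le⟩
    · exact ⟨z0, hz0, by rw [hz]; simp [abs_of_pos hη]⟩
    · exact ⟨z0, hz0, by rw [hz]; simp [abs_of_pos hη]⟩
  have hPK : ∀ z ∈ P, ∃ z' ∈ K, ‖z - z'‖ ≤ η := by
    have hsub : P ⊆ cthickening η K := by
      refine convexHull_min ?_ (hconv.cthickening η)
      intro z hz
      obtain ⟨z', hz', hzz⟩ := hsub0 z hz
      exact mem_cthickening_of_dist_le z z' η K hz' (by rw [dist_eq_norm]; exact hzz)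
    intro z hz
    have h1 := hsub hz
    rw [hK.cthickening_eq_biUnion_closedBall hη.le] at h1
    simp only [Set.mem_iUnion, mem_closedBall, exists_prop] at h1
    obtain ⟨z', hz', hd⟩ := h1
    exact ⟨z', hz', by rw [← dist_eq_norm]; exact hd⟩
  have hKP : ∀ z ∈ K, ∃ z' ∈ P, ‖z - z'‖ ≤ η := by
    intro z hz
    have h1 := htc hz
    simp only [Set.mem_iUnion, mem_ball, exists_prop] at h1
    obtain ⟨z', hz', hd⟩ := h1
    refine ⟨z', subset_convexHull ℝ _ ?_, by rw [← dist_eq_norm]; exact hd.le⟩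
    rw [hF0]
    simp only [Finset.coe_union, Set.mem_union, Set.Finite.coe_toFinset]
    exact Or.inl hz'
  have hint : (interior P).Nonempty := by
    refine interior_hull_nonempty hη (z := z0) ?_ ?_ ?_ <;> rw [hF0] <;> simp
  have hPn : P.Nonempty := hint.mono interior_subset
  have hper1 := perimeter_le_add hPc hPn hK hPK
  have hper2 := perimeter_le_add hK ⟨z0, hz0⟩ hPc hKP
  rw [hper] at hper1 hper2
  have hq : 0 < perimeter P := by linarith
  set c : ℝ := p / perimeter P with hc
  have hc0 : 0 < c := div_pos hp hq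
  have hcp : c * perimeter P = p := by rw [hc]; field_simp
  have hc1 : |c - 1| * perimeter P ≤ 2 * Real.pi * η := by
    have h0 : |c - 1| * perimeter P = |(c - 1) * perimeter P| := by
      rw [abs_mul, abs_of_pos hq]
    rw [h0, sub_mul, hcp, one_mul, abs_le]
    constructor <;> linarith
  have hc2 : |c - 1| * (N + 1) ≤ ε / 2 := by
    have h1 : p / 2 ≤ perimeter P := by linarith
    have h2 : |c - 1| * (p / 2) ≤ 2 * Real.pi * η :=
      (mul_le_mul_of_nonneg_left h1 (abs_nonneg _)).trans hc1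
    have h3 : |c - 1| * (N + 1) * p ≤ (ε / 2) * p := by
      have h4 : |c - 1| * (p / 2) * (2 * (N + 1)) ≤ 2 * Real.pi * η * (2 * (N + 1)) :=
        mul_le_mul_of_nonneg_right h2 (by positivity)
      nlinarith
    exact le_of_mul_le_mul_right h3 hp
  have hPN : ∀ z ∈ P, ‖z‖ ≤ N + 1 := by
    intro z hz
    obtain ⟨z', hz', hzz⟩ := hPK z hz
    calc ‖z‖ = ‖z' + (z - z')‖ := by ring_nf
      _ ≤ ‖z'‖ + ‖z - z'‖ := norm_add_le _ _
      _ ≤ N + 1 := add_le_add (hN z' hz') (hzz.trans hη1)
  have hmove : ∀ z ∈ P, ‖z - c • z‖ ≤ ε / 2 := by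
    intro z hz
    have h1 : z - c • z = (1 - c) • z := by rw [sub_smul, one_smul]
    rw [h1, norm_smul, Real.norm_eq_abs, abs_sub_comm]
    exact (mul_le_mul_of_nonneg_left (hPN z hz) (abs_nonneg _)).trans hc2
  -- the scaled polygon
  have hcoe : ((F0.image (fun z => c • z) : Finset ℂ) : Set ℂ) = c • (F0 : Set ℂ) := by
    rw [Finset.coe_image]
    rfl
  have hhull : convexHull ℝ ((F0.image (fun z => c • z) : Finset ℂ) : Set ℂ) = c • P := by
    rw [hcoe, convexHull_smul]
  refine ⟨F0.image (fun z => c • z), ?_, ?_, ?_, ?_⟩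
  · rw [hhull, perimeter_smul hc0.le, hcp]
  · rw [hhull, interior_smul₀ hc0.ne']
    exact hint.smul_set
  · intro z hz
    obtain ⟨z', hz', hzz⟩ := hKP z hz
    refine ⟨c • z', by rw [hhull]; exact Set.smul_mem_smul_set hz', ?_⟩
    calc ‖z - c • z'‖ = ‖(z - z') + (z' - c • z')‖ := by ring_nf
      _ ≤ ‖z - z'‖ + ‖z' - c • z'‖ := norm_add_le _ _
      _ ≤ ε / 2 + ε / 2 := add_le_add (hzz.trans hη2) (hmove z' hz')
      _ = ε := by ring
  · intro w hw
    rw [hhull] at hw
    obtain ⟨z, hz, rfl⟩ := hw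
    obtain ⟨z', hz', hzz⟩ := hPK z hz
    refine ⟨z', hz', ?_⟩
    calc ‖z' - c • z‖ = ‖(z' - z) + (z - c • z)‖ := by ring_nf
      _ ≤ ‖z' - z‖ + ‖z - c • z‖ := norm_add_le _ _
      _ ≤ ε / 2 + ε / 2 := add_le_add (by rw [norm_sub_rev]; exact hzz.trans hη2) (hmove z hz)
      _ = ε := by ring

end Pool.Agent.Helper84.PR
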